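import Mathlib

namespace Pool.Agent.MP_b9ac25_al

open Subgroup
open scoped commutatorElement

/-- lower central series of a whole group -/
abbrev lcs (G : Type*) [Group G] (n : ℕ) : Subgroup G := (⊤ : Subgroup G).lowerCentralSeries n

lemma map_mem_lcs {G K : Type*} [Group G] [Group K] (f : G →* K) (n : ℕ) {g : G}
    (hg : g ∈ lcs G n) : f g ∈ lcs K n := by
  have h1 : f g ∈ (lcs G n).map f := mem_map_of_mem f hg
  rw [lcs, map_lowerCentralSeries] at h1
  exact lowerCentralSeries_mono n le_top h1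

/-- a homomorphism onto modulo the commutator subgroup is onto modulo every term -/
lemma onto_mod {G K : Type*} [Group G] [Group K] (f : G →* K)
    (h1 : ∀ k : K, ∃ g : G, (f g)⁻¹ * k ∈ lcs K 1) (n : ℕ) :
    ∀ k : K, ∃ g : G, (f g)⁻¹ * k ∈ lcs K n := by
  induction n with
  | zero => intro k; exact ⟨1, by simp [lcs]⟩
  | succ n ih =>
    let q : K →* K ⧸ lcs K (n + 1) := QuotientGroup.mk' _
    have hq : ∀ x : K, q x = 1 ↔ x ∈ lcs K (n + 1) := fun x => QuotientGroup.eq_one_iff x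
    have hcen : ∀ y ∈ lcs K n, ∀ z : K, q y * q z = q z * q y := by
      intro y hy z
      have : q ⁅y, z⁆ = 1 := (hq _).2 (commutator_mem_commutator hy (mem_top z))
      rw [map_commutatorElement, commutatorElement_eq_one_iff_mul_comm] at this
      exact this
    have hcomm : lcs K 1 ≤ ((q.comp f).range).comap q := by
      rw [lcs, Subgroup.lowerCentralSeries_succ, Subgroup.lowerCentralSeries_zero,
        Subgroup.commutator_le]
      intro k1 _ k2 _
      obtain ⟨g1, hg1⟩ := ih k1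
      obtain ⟨g2, hg2⟩ := ih k2
      refine ⟨⁅g1, g2⁆, ?_⟩
      have e1 : k1 = f g1 * ((f g1)⁻¹ * k1) := by group
      have e2 : k2 = f g2 * ((f g2)⁻¹ * k2) := by group
      generalize (f g1)⁻¹ * k1 = y1 at hg1 e1
      generalize (f g2)⁻¹ * k2 = y2 at hg2 e2
      subst e1 e2
      have c1 : ∀ z : K ⧸ lcs K (n + 1), q y1 * z = z * q y1 := by
        intro z
        obtain ⟨z, rfl⟩ := QuotientGroup.mk'_surjective _ z
        exact hcen y1 hg1 z
      have c2 : ∀ z : K ⧸ lcs K (n + 1), q y2 * z = z * q y2 := by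
        intro z
        obtain ⟨z, rfl⟩ := QuotientGroup.mk'_surjective _ z
        exact hcen y2 hg2 z
      simp only [MonoidHom.comp_apply, map_commutatorElement, map_mul, commutatorElement_def,
        map_inv]
      generalize q (f g1) = a
      generalize q (f g2) = b
      generalize q y1 = u at c1
      generalize q y2 = v at c2
      calc a * b * a⁻¹ * b⁻¹ = a * (b * a⁻¹ * v) * v⁻¹ * b⁻¹ := by group
        _ = a * (b * (v * a⁻¹)) * v⁻¹ * b⁻¹ := by rw [c2]; group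
        _ = a * ((b * v) * u) * u⁻¹ * a⁻¹ * v⁻¹ * b⁻¹ := by group
        _ = a * (u * (b * v)) * u⁻¹ * a⁻¹ * v⁻¹ * b⁻¹ := by rw [c1]
        _ = a * u * (b * v) * (a * u)⁻¹ * (b * v)⁻¹ := by group
    intro k
    obtain ⟨g, hg⟩ := h1 k
    obtain ⟨g', hg'⟩ := hcomm hg
    refine ⟨g * g', (hq _).1 ?_⟩
    simp only [MonoidHom.comp_apply, map_mul, map_inv] at hg' ⊢
    rw [mul_inv_rev, hg']
    group

/-- key step -/
lemma key {Γ F : Type*} [Group Γ] [Group F] [IsFreeGroup F] (φ : F →* Γ)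
    (hsurj : ∀ k : Γ, ∃ g : F, (φ g)⁻¹ * k ∈ lcs Γ 1)
    (hinj : ∀ g : F, φ g ∈ lcs Γ 1 → g ∈ lcs F 1) (n : ℕ)
    (θ : Γ ⧸ lcs Γ n ≃* F ⧸ lcs F n) (g : F) (hg : φ g ∈ lcs Γ n) : g ∈ lcs F n := by
  rcases Nat.eq_zero_or_pos n with rfl | hn
  · simp [lcs]
  let ψ : F →* F ⧸ lcs F n := θ.toMonoidHom.comp ((QuotientGroup.mk' (lcs Γ n)).comp φ)
  have hψ1 : ∀ x : F, ψ x = 1 ↔ φ x ∈ lcs Γ n := by
    intro x
    simp only [ψ, MonoidHom.comp_apply, MulEquiv.coe_toMonoidHom, MulEquiv.map_eq_one_iff]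
    exact QuotientGroup.eq_one_iff _
  have hψs : Function.Surjective ψ := by
    intro z
    obtain ⟨k, hk⟩ := QuotientGroup.mk'_surjective (lcs Γ n) (θ.symm z)
    obtain ⟨x, hx⟩ := onto_mod φ hsurj n k
    refine ⟨x, ?_⟩
    have : QuotientGroup.mk' (lcs Γ n) (φ x) = QuotientGroup.mk' (lcs Γ n) k :=
      QuotientGroup.eq.2 hx
    simp only [ψ, MonoidHom.comp_apply, MulEquiv.coe_toMonoidHom, this, hk,
      MulEquiv.apply_symm_apply]
  choose s hs using fun a : IsFreeGroup.Generators F =>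
    hψs (QuotientGroup.mk' (lcs F n) (IsFreeGroup.of a))
  let σ : F →* F := IsFreeGroup.lift s
  have hσ : ψ.comp σ = QuotientGroup.mk' (lcs F n) := by
    apply IsFreeGroup.ext_hom
    intro a
    simp only [MonoidHom.comp_apply, σ, IsFreeGroup.lift_of, hs]
  have hσ' : ∀ x, ψ (σ x) = QuotientGroup.mk' (lcs F n) x := fun x => DFunLike.congr_fun hσ x
  have hσs : ∀ x : F, ∃ y : F, (σ y)⁻¹ * x ∈ lcs F 1 := by
    intro x
    obtain ⟨y, hy⟩ := QuotientGroup.mk'_surjective (lcs F n) (ψ x)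
    refine ⟨y, hinj _ (Subgroup.lowerCentralSeries_antitone ⊤ hn ((hψ1 _).1 ?_))⟩
    rw [map_mul, map_inv, hσ', hy, inv_mul_cancel]
  obtain ⟨y, hy⟩ := onto_mod σ hσs n g
  have h1 : ψ ((σ y)⁻¹ * g) = 1 := (hψ1 _).2 (map_mem_lcs φ n hy)
  rw [map_mul, map_inv, (hψ1 g).2 hg, mul_one, inv_eq_one, hσ'] at h1
  have h2 : y ∈ lcs F n := (QuotientGroup.eq_one_iff y).1 h1
  have h3 : σ y ∈ lcs F n := map_mem_lcs σ n h2
  have := (lcs F n).mul_mem h3 hy
  simpa using this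

lemma exists_lift {Γ F : Type*} [Group Γ] [Group F] [IsFreeGroup F]
    (θ : Γ ⧸ lcs Γ 1 ≃* F ⧸ lcs F 1) : ∃ φ : F →* Γ,
    (∀ k : Γ, ∃ g : F, (φ g)⁻¹ * k ∈ lcs Γ 1) ∧ (∀ g : F, φ g ∈ lcs Γ 1 → g ∈ lcs F 1) := by
  choose s hs using fun a : IsFreeGroup.Generators F =>
    QuotientGroup.mk'_surjective (lcs Γ 1) (θ.symm (QuotientGroup.mk' (lcs F 1) (IsFreeGroup.of a)))
  let φ : F →* Γ := IsFreeGroup.lift s
  have hφ : (QuotientGroup.mk' (lcs Γ 1)).comp φ =
      θ.symm.toMonoidHom.comp (QuotientGroup.mk' (lcs F 1)) := by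
    apply IsFreeGroup.ext_hom
    intro a
    simp only [MonoidHom.comp_apply, φ, IsFreeGroup.lift_of, hs, MulEquiv.coe_toMonoidHom]
  have hφ' : ∀ x, QuotientGroup.mk' (lcs Γ 1) (φ x) = θ.symm (QuotientGroup.mk' (lcs F 1) x) :=
    fun x => DFunLike.congr_fun hφ x
  refine ⟨φ, ?_, ?_⟩
  · intro k
    obtain ⟨g, hg⟩ := QuotientGroup.mk'_surjective (lcs F 1) (θ (QuotientGroup.mk' (lcs Γ 1) k))
    refine ⟨g, QuotientGroup.eq.1 ?_⟩
    have := hφ' g
    rw [hg, MulEquiv.symm_apply_apply] at this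
    exact this
  · intro g hg
    have h1 : QuotientGroup.mk' (lcs Γ 1) (φ g) = 1 := (QuotientGroup.eq_one_iff _).2 hg
    rw [hφ', MulEquiv.map_eq_one_iff] at h1
    exact (QuotientGroup.eq_one_iff _).1 h1

lemma main {Γ F : Type*} [Group Γ] [Group F] [IsFreeGroup F]
    (h : ∀ n : ℕ, Nonempty (Γ ⧸ lcs Γ n ≃* F ⧸ lcs F n)) :
    ∃ φ : F →* Γ, ∀ n : ℕ, ∃ e : F ⧸ lcs F n ≃* Γ ⧸ lcs Γ n,
      ∀ x : F, e (QuotientGroup.mk x) = QuotientGroup.mk (φ x) := by
  obtain ⟨θ1⟩ := h 1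
  obtain ⟨φ, hs, hi⟩ := exists_lift θ1
  refine ⟨φ, fun n => ?_⟩
  obtain ⟨θ⟩ := h n
  have hle : lcs F n ≤ (lcs Γ n).comap φ := fun x hx => map_mem_lcs φ n hx
  have hbij : Function.Bijective (QuotientGroup.map (lcs F n) (lcs Γ n) φ hle) := by
    constructor
    · rw [injective_iff_map_eq_one]
      intro z hz
      obtain ⟨x, rfl⟩ := QuotientGroup.mk_surjective z
      rw [QuotientGroup.map_mk, QuotientGroup.eq_one_iff] at hz
      exact (QuotientGroup.eq_one_iff _).2 (key φ hs hi n θ x hz)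
    · intro z
      obtain ⟨k, rfl⟩ := QuotientGroup.mk_surjective z
      obtain ⟨x, hx⟩ := onto_mod φ hs n k
      exact ⟨QuotientGroup.mk x, by rw [QuotientGroup.map_mk]; exact QuotientGroup.eq.2 hx⟩
  exact ⟨MulEquiv.ofBijective _ hbij, fun x => by simp⟩

end Pool.Agent.MP_b9ac25_al
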